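import Pool.Agent.W945.Lc.Stm2

/-!
# Small-bias bits fool functions of small spectral norm
-/

namespace Pool.Agent.W929.Lc2.FOOLS

open Pool.Agent.W945.Pw Pool.Agent.W945.Lc

lemma avg_sum {Ω : Type} [Fintype Ω] {ι : Type} (s : Finset ι) (g : ι → Ω → ℝ) :
    avg (fun ω => ∑ i ∈ s, g i ω) = ∑ i ∈ s, avg (g i) := by
  unfold avg
  rw [Finset.sum_comm, Finset.sum_div]

lemma avg_mul {Ω : Type} [Fintype Ω] (c : ℝ) (g : Ω → ℝ) : avg (fun ω => c * g ω) = c * avg g := by
  unfold avg
  rw [← Finset.mul_sum, mul_div_assoc]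

lemma avg_one {Ω : Type} [Fintype Ω] [Nonempty Ω] : avg (fun _ : Ω => (1 : ℝ)) = 1 := by
  unfold avg
  rw [Finset.sum_const, Finset.card_univ, nsmul_eq_mul, mul_one]
  exact div_self (Nat.cast_ne_zero.mpr Fintype.card_ne_zero)

lemma avg_chi {n : ℕ} (S : Finset (Fin n)) (hS : S.Nonempty) :
    avg (fun x : Fin n → Bool => chi S x) = 0 := by
  obtain ⟨v, hv⟩ := hS
  have h1 : ∑ x : Fin n → Bool, chi S x = 0 := by
    refine Finset.sum_involution (fun x _ => Function.update x v (!x v)) ?_ ?_ ?_ ?_
    · intro x _
      unfold chi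
      rw [← Finset.mul_prod_erase S _ hv, ← Finset.mul_prod_erase S _ hv]
      have h2 : ∏ i ∈ S.erase v, sg (Function.update x v (!x v) i) = ∏ i ∈ S.erase v, sg (x i) := by
        refine Finset.prod_congr rfl fun i hi => ?_
        rw [Function.update_of_ne (Finset.ne_of_mem_erase hi)]
      rw [h2, Function.update_self]
      cases x v <;> simp [sg]
    · intro x _ _ h
      have := congrFun h v
      rw [Function.update_self] at this
      cases hx : x v <;> simp [hx] at this
    · intro x _
      exact Finset.mem_univ _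
    · intro x _
      funext i
      by_cases hi : i = v
      · subst hi
        simp
      · rw [Function.update_of_ne hi, Function.update_of_ne hi]
  unfold avg
  rw [h1, zero_div]

theorem main : FOOLS.Stm := by
  intro n a ε Ω _ _ D f hε ⟨c, hc, hca⟩ hD
  have h1 : avg (fun ω => f (D ω)) = ∑ S, c S * avg (fun ω => chi S (D ω)) := by
    simp only [hc]
    rw [avg_sum]
    exact Finset.sum_congr rfl fun S _ => avg_mul _ _
  have h2 : avg f = ∑ S, c S * avg (fun x : Fin n → Bool => chi S x) := by
    have h3 : f = fun x => ∑ S, c S * chi S x := funext hc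
    rw [h3, avg_sum]
    exact Finset.sum_congr rfl fun S _ => avg_mul _ _
  rw [h1, h2, ← Finset.sum_sub_distrib]
  calc |∑ S, (c S * avg (fun ω => chi S (D ω)) - c S * avg (fun x : Fin n → Bool => chi S x))|
      ≤ ∑ S, |c S * avg (fun ω => chi S (D ω)) - c S * avg (fun x : Fin n → Bool => chi S x)| :=
        Finset.abs_sum_le_sum_abs _ _
    _ ≤ ∑ S, |c S| * ε := by
        refine Finset.sum_le_sum fun S _ => ?_
        rcases S.eq_empty_or_nonempty with rfl | hS
        · have h4 : avg (fun ω => chi (∅ : Finset (Fin n)) (D ω)) = 1 := by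
            simp only [chi, Finset.prod_empty]
            exact avg_one
          have h5 : avg (fun x : Fin n → Bool => chi (∅ : Finset (Fin n)) x) = 1 := by
            simp only [chi, Finset.prod_empty]
            exact avg_one
          rw [h4, h5, sub_self, abs_zero]
          exact mul_nonneg (abs_nonneg _) hε
        · rw [avg_chi S hS, mul_zero, sub_zero, abs_mul]
          exact mul_le_mul_of_nonneg_left (hD S hS) (abs_nonneg _)
    _ = (∑ S, |c S|) * ε := (Finset.sum_mul _ _ _).symm
    _ ≤ a * ε := mul_le_mul_of_nonneg_right hca hε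

end Pool.Agent.W929.Lc2.FOOLS
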